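import Pool.Agent.H705.RO.Stm

set_option autoImplicit false

/-!
`T_ARC`: the points near the integers.
-/

open MeasureTheory Set

namespace Pool.Agent.H274.RO

open Pool.Agent.H705.RO

theorem nr_eq (δ : ℝ) : {y : ℝ | nr δ y} =
    (fun y : ℝ => (y : UnitAddCircle)) ⁻¹' Metric.closedBall (0 : UnitAddCircle) (δ / 2) := by
  ext y
  rw [Set.mem_preimage, mem_closedBall_zero_iff, UnitAddCircle.norm_eq]
  rfl

theorem nr_meas (δ : ℝ) : MeasurableSet {y : ℝ | nr δ y} := by
  rw [nr_eq]
  exact (Metric.isClosed_closedBall.preimage (AddCircle.continuous_mk' 1)).measurableSet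

theorem T_ARC : P_ARC := by
  refine ⟨?_, ?_, nr_meas⟩
  · intro δ y hδ hδ1 h
    have h1 : |y - round y| ≤ δ / 2 := h
    have h2 : Real.cos (2 * Real.pi * y) = Real.cos |2 * Real.pi * (y - round y)| := by
      rw [Real.cos_abs, ← Real.cos_sub_int_mul_two_pi (2 * Real.pi * y) (round y)]
      congr 1
      ring
    have h3 : |2 * Real.pi * (y - round y)| ≤ Real.pi * δ := by
      rw [abs_mul, abs_of_pos Real.two_pi_pos]
      have h4 := mul_le_mul_of_nonneg_left h1 Real.two_pi_pos.le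
      linarith
    rw [h2]
    refine Real.cos_le_cos_of_nonneg_of_le_pi (abs_nonneg _) ?_ h3
    exact mul_le_of_le_one_right Real.pi_pos.le hδ1
  · intro z δ hδ hδ1
    have h1 : {v : ℝ | v ∈ Set.Icc (0 : ℝ) 1 ∧ nr δ (z + v)} =
        (fun v => z + v) ⁻¹' (Icc z (z + 1) ∩ {y : ℝ | nr δ y}) := by
      ext v
      constructor
      · rintro ⟨⟨ha, hb⟩, hc⟩
        exact ⟨⟨by show z ≤ z + v; linarith, by show z + v ≤ z + 1; linarith⟩, hc⟩
      · rintro ⟨⟨ha, hb⟩, hc⟩
        have ha' : z ≤ z + v := ha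
        have hb' : z + v ≤ z + 1 := hb
        exact ⟨⟨by linarith, by linarith⟩, hc⟩
    rw [h1, measure_preimage_add]
    have h2 : (Icc z (z + 1) ∩ {y : ℝ | nr δ y} : Set ℝ) =ᵐ[volume]
        (Ioc z (z + 1) ∩ {y : ℝ | nr δ y} : Set ℝ) :=
      Ioc_ae_eq_Icc.symm.inter (Filter.EventuallyEq.refl _ _)
    rw [measure_congr h2]
    have h3 := (AddCircle.measurePreserving_mk (1 : ℝ) z).measure_preimage
      (s := Metric.closedBall (0 : AddCircle (1 : ℝ)) (δ / 2))
      Metric.isClosed_closedBall.measurableSet.nullMeasurableSet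
    rw [AddCircle.volume_closedBall] at h3
    have h4 : min (1 : ℝ) (2 * (δ / 2)) = δ := by
      rw [mul_div_cancel₀ δ (two_ne_zero), min_eq_right hδ1]
    rw [h4, Measure.restrict_apply] at h3
    · rw [← h3, nr_eq, Set.inter_comm]
    · exact (Metric.isClosed_closedBall.preimage (AddCircle.continuous_mk' 1)).measurableSet

end Pool.Agent.H274.RO
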